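import Pool.Agent.helper18.KU.Spec

/-!
# Project ku, row TRE: trees from pointers
-/

set_option autoImplicit false

namespace Pool.Agent.KU

open Finset

noncomputable section

theorem TRE : TRE_stmt := by
  intro V _ _ x p ρ hρ
  have hne : ∀ v, v ≠ x → v ≠ p v := by
    intro v hv h
    have h1 := hρ v hv
    rw [← h] at h1
    exact lt_irrefl _ h1
  have hadj : ∀ v, v ≠ x →
      (SimpleGraph.fromEdgeSet {z | ∃ v, v ≠ x ∧ z = s(v, p v)}).Adj v (p v) := by
    intro v hv
    rw [SimpleGraph.fromEdgeSet_adj]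
    exact ⟨⟨v, hv, rfl⟩, hne v hv⟩
  have hreach : ∀ (n : ℕ) (v : V), ρ v ≤ n →
      (SimpleGraph.fromEdgeSet {z | ∃ v, v ≠ x ∧ z = s(v, p v)}).Reachable v x := by
    intro n
    induction n with
    | zero =>
      intro v hv
      by_cases h : v = x
      · rw [h]
      · have := hρ v h
        omega
    | succ n ih =>
      intro v hv
      by_cases h : v = x
      · rw [h]
      · have h1 := hρ v h
        exact (hadj v h).reachable.trans (ih (p v) (by omega))
  rw [SimpleGraph.isTree_iff_connected_and_card]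
  refine ⟨?_, ?_⟩
  · rw [SimpleGraph.connected_iff]
    exact ⟨fun u v => (hreach _ u le_rfl).trans (hreach _ v le_rfl).symm, ⟨x⟩⟩
  · have hset : (SimpleGraph.fromEdgeSet {z | ∃ v, v ≠ x ∧ z = s(v, p v)}).edgeSet =
        (fun v => s(v, p v)) '' {v | v ≠ x} := by
      rw [SimpleGraph.edgeSet_fromEdgeSet]
      ext z
      constructor
      · rintro ⟨⟨v, hv, rfl⟩, -⟩
        exact ⟨v, hv, rfl⟩
      · rintro ⟨v, hv, rfl⟩
        exact ⟨⟨v, hv, rfl⟩, fun h => hne v hv (Sym2.mk_isDiag_iff.1 h)⟩
    have hinj : Set.InjOn (fun v => s(v, p v)) {v | v ≠ x} := by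
      intro u hu v hv h
      rcases Sym2.eq_iff.1 h with ⟨h1, -⟩ | ⟨h1, h2⟩
      · exact h1
      · exfalso
        have h3 := hρ u hu
        have h4 := hρ v hv
        rw [h2] at h3
        rw [← h1] at h4
        omega
    rw [hset, Nat.card_image_of_injOn hinj, Nat.card_eq_fintype_card, Nat.card_eq_fintype_card]
    have h5 : Fintype.card ({v | v ≠ x} : Set V) = Fintype.card V - 1 := by
      have h6 := Fintype.card_subtype_compl (fun v => v = x)
      rw [Fintype.card_subtype_eq] at h6
      rw [← h6]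
      exact Fintype.card_congr (Equiv.refl _)
    rw [h5]
    have : 0 < Fintype.card V := Fintype.card_pos_iff.2 ⟨x⟩
    omega

end

end Pool.Agent.KU
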